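import Pool.Agent.Helper45.TC.Last
import Pool.Agent.Helper45.TC.Log

/-!
# Tame representations of arbitrary dimension over number fields with many units

Let `K` be a number field whose group of units has rank `ρ`, and let `p` be an odd prime number which
divides neither the discriminant nor the class number of `K`. Let `n` and `d ≥ 2` be natural numbers
with `(n - 1) (2 d - 3) ≤ ρ`, `2 d - 2 ≤ p` and `n < p`. We prove that there are infinitely many finite
sets `S` of primes of `K` with the following property. Let `S'` be a finite set of primes of `K` whose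
members with norm congruent to `1` modulo `p`, which do not lie above `p`, belong to `S`, and let `A` be
any complete Noetherian local ring with finite residue field of characteristic `p`. Then all continuous
homomorphisms from the absolute Galois group of `K` to `GL_m(A)` with `m ≤ n`, which are unramified
outside `S'` and at most tamely ramified in `S'`, and whose image in `PGL_m` of the residue field is a
`p`-group, have finite image (`result`).

The set `S` consists of `ρ + d` primes `v` of degree one with norm congruent to `1` modulo `p`, and there
are exactly `p ^ d` continuous characters with values in the group of order `p` which are unramified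
outside `S`. So the Galois group `G_S(p)` of the maximal `p`-extension of `K` unramified outside `S` is
generated by `d` elements, and by results of Shafarevich and Koch it can be presented by `ρ + d`
relations. If `4 (ρ + d) ≤ d ^ 2`, then it is infinite by the theorem of Golod and Shafarevich. If
`16 n ^ 2 ≤ ρ`, then there is `d` which satisfies `(n - 1) (2 d - 3) ≤ ρ`, `4 (ρ + d) ≤ d ^ 2` and
`(d - 3) ^ 2 < 4 (ρ + 1)` (`exists_d`), and then the only condition for `p` is that `p` is larger than
`4 √(ρ + 1) + 4` and divides neither the discriminant nor the class number of `K`.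

The sets `S` are not exceptional: if `(n - 1) (2 d - 3) + d ≤ s`, then the same is true for all odd
prime numbers `p > n` prime to the class number and for all sets `S` of `s` primes with prime norms
congruent to `1` modulo `p` and not modulo `p ^ 2`, with exactly `p ^ d` characters unramified
outside `S`, whose symbols (logarithms of units and of generators of the powers with exponent `h` of
the primes) are not zeros modulo `p` of a certain nonzero polynomial with integral coefficients, which
depends only on `n`, `d` and `s` (`generic`).

Idea of the proof.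

1. Class field theory modulo `p` for tame characters is proved from the beginning. Let `T` be a finite
set of primes `v` of `K` of degree one with norm congruent to `1` modulo `p`, and let `log_v` be a
surjective homomorphism from the multiplicative group of the residue field to `F_p`. The characters
`χ` of the absolute Galois group of `K` with values in `F_p` which are unramified outside `T` correspond
to the vectors `κ` in `F_p ^ T` with `∑ κ_v log_v ε = 0` for all units `ε`; the character is ramified
at `v` if and only if `κ_v ≠ 0`, and its value at a Frobenius element of another such prime `u` is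
`- h⁻¹ ∑ κ_v log_v π`, where `h` is the class number and `π` is a generator of `u ^ h`
(`Helper77.TC.exists_kap`). The proof uses the first inequality, Kummer theory over `K(ζ_p)` and
cyclotomic extensions (`Helper84.TC.exists_rec`).

2. The primes in `S` are chosen one after the other with a form of the density theorem of Frobenius
(`Helper77.TC.exists_primes`) such that the values of the characters at inertia elements and Frobenius
elements of all `v` in `S` are prescribed vectors, up to the possible changes (`basis_of_dat`). For
`(n - 1) (2 d - 3)` primes they are `γ(t)` and `- γ(g ^ i t)`, where `γ(t)` is the vector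
`(1, t, t ^ 2, ..., t ^ (d - 1))`, `g` is a primitive root modulo `p`, `1 ≤ i ≤ n - 1` and `t` runs
through `2 d - 3` different elements. For `d` primes they are the unit vectors and zero, and for the
remaining ones both are zero.

3. Let a representation with values in `GL_m(O)` be given, where `O` is a complete discrete valuation
ring, and let it be congruent to `1` modulo the power `π ^ a` of the prime element. The first
coefficient is a linear map `φ` from `F_p ^ d` to the matrices over the residue field. The relation
between inertia and Frobenius elements says that the commutator of `φ(γ(t))` and `φ(γ(g ^ i t))`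
vanishes, if `a` is smaller than the valuation of `p`. Each entry of the commutator is an alternating
form which is a sum of `m - 1` forms of rank two. A form of this type which vanishes at all pairs
`(γ(t), γ(g ^ i t))` is zero: let `s` be minimal such that a coefficient with `a + b = s` does not
vanish; there are at most `2 (m - 1)` of them, and they satisfy a Vandermonde system with `2 m - 1`
equations. So `φ` is commutative. If `a` is the valuation of `p`, then the last `d` primes give
`φ = 0`. By a criterion proved before (`Helper91.KL.finite_of_critQ`) the image is finite.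
-/

set_option autoImplicit false

open NumberField IsLocalRing Matrix

open scoped Pointwise

namespace Pool.Agent.Results.MP_924d78_nt.LargeUnitRank

/-- The absolute Galois group of the field `K`. -/
abbrev G (K : Type) [Field K] : Type := AlgebraicClosure K ≃ₐ[K] AlgebraicClosure K

/-- The homomorphism `ρ` is unramified outside `S` and at most tamely ramified in `S`: for every
number field `F` containing `K` and embedded over `K` into the fixed field of the kernel of `ρ`,
and every maximal ideal `P` of the ring of integers of `F` above a prime `q` of `K`, the ramification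
index `e` of `P` over `q` is `1` if `q ∉ S` and is prime to the residue characteristic if `q ∈ S`. -/
def TameAt (K : Type) [Field K] [NumberField K] (S : Set (Ideal (𝓞 K))) {H : Type} [Group H]
    (ρ : G K →* H) : Prop :=
  ∀ (F : Type) [Field F] [NumberField F] [Algebra K F] (ι : F →ₐ[K] AlgebraicClosure K),
    ι.fieldRange ≤ IntermediateField.fixedField ρ.ker →
    ∀ (P : Ideal (𝓞 F)), P.IsMaximal →
    ∀ (q : Ideal (𝓞 K)), q = P.comap (algebraMap (𝓞 K) (𝓞 F)) →
    ∀ e : ℕ, q.map (algebraMap (𝓞 K) (𝓞 F)) ≤ P ^ e →
      ¬ (q.map (algebraMap (𝓞 K) (𝓞 F)) ≤ P ^ (e + 1)) →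
      (q ∉ S → e = 1) ∧ (q ∈ S → ¬ (ringChar (𝓞 K ⧸ q) ∣ e))

/-- The residual representation: the reduction of `ρ` modulo the maximal ideal. -/
noncomputable def residual {Γ A : Type} [Group Γ] [CommRing A] [IsLocalRing A] {n : ℕ}
    (ρ : Γ →* GL (Fin n) A) : Γ →* GL (Fin n) (ResidueField A) :=
  (Matrix.GeneralLinearGroup.map (residue A)).comp ρ

/-- The projective image of `τ` is a `p`-group: for every `g` some power of `τ g` with exponent a
power of `p` is scalar. -/
def ProjectivelyP (p : ℕ) {Γ k : Type} [Group Γ] [Field k] {n : ℕ} (τ : Γ →* GL (Fin n) k) : Prop :=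
  ∀ g, ∃ (j : ℕ) (a : k), ((τ g ^ p ^ j : GL (Fin n) k) : Matrix (Fin n) (Fin n) k) = a • 1

/-- The homomorphism `ψ` to the group of order `p` is continuous and unramified outside `S`: its kernel
is open and it is trivial on the inertia groups of all maximal ideals `Q` of the ring of all algebraic
integers which lie above a prime outside `S`. -/
def UnramifiedOutside (p : ℕ) {K : Type} [Field K] [NumberField K] (S : Set (Ideal (𝓞 K)))
    (ψ : G K →* Multiplicative (ZMod p)) : Prop :=
  IsOpen (ψ.ker : Set (G K)) ∧ ∀ Q : Ideal (𝓞 (AlgebraicClosure K)), Q.IsMaximal →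
    Q.comap (algebraMap (𝓞 K) (𝓞 (AlgebraicClosure K))) ∉ S → ∀ γ ∈ Q.inertia (G K), ψ γ = 1

/-- The set `S` consists of `ρ + d` primes `P` of `K`, where `ρ` is the rank of the group of units,
the residue fields of `P` have a prime number `q` of elements, where `q - 1` is divisible by `p` and
not by `p ^ 2`, and there are `p ^ d` continuous homomorphisms from the absolute Galois group to the
group of order `p` which are unramified outside `S`. -/
structure Generators (p : ℕ) (K : Type) [Field K] [NumberField K] (d : ℕ)
    (S : Finset (Ideal (𝓞 K))) : Prop where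
  card_eq : S.card = Units.rank K + d
  maximal : ∀ P ∈ S, P.IsMaximal
  prime : ∀ P ∈ S, (Nat.card (𝓞 K ⧸ P)).Prime
  dvd : ∀ P ∈ S, p ∣ Nat.card (𝓞 K ⧸ P) - 1
  not_dvd : ∀ P ∈ S, ¬ p ^ 2 ∣ Nat.card (𝓞 K ⧸ P) - 1
  characters : Nat.card {ψ : G K →* Multiplicative (ZMod p) //
    UnramifiedOutside p (S : Set (Ideal (𝓞 K))) ψ} = p ^ d

/-- Let `K` be a number field, and let `p` be an odd prime number which divides neither the
discriminant nor the class number of `K`. Let `(n - 1) (2 d - 3)` be at most the rank of the group of
units of `K`, and `n < p`, `2 ≤ d`, `2 d - 2 ≤ p`. For every finite set `B` of primes there is a set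
`S` of primes outside `B` as in `Generators`, such that all representations of dimension `m ≤ n` over
complete Noetherian local rings, which are tame and ramified only in a finite set `S'` whose members
with norm congruent to `1` modulo `p` are in `S` or above `p`, and whose projective residual image is
a `p`-group, have finite image. -/
theorem result (K : Type) [Field K] [NumberField K] (p : ℕ) [Fact p.Prime] (n d : ℕ)
    (hp : p ≠ 2) (hdisc : ¬ (p : ℤ) ∣ discr K) (hcl : ¬ p ∣ classNumber K) (hd : 2 ≤ d)
    (hn : n < p) (hdp : 2 * d - 2 ≤ p) (hr : (n - 1) * (2 * d - 3) ≤ Units.rank K)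
    (B : Set (Ideal (𝓞 K))) (hB : B.Finite) :
    ∃ S : Finset (Ideal (𝓞 K)), (∀ P ∈ S, P ∉ B) ∧ Generators p K d S ∧
      ∀ S' : Set (Ideal (𝓞 K)), S'.Finite →
      (∀ P ∈ S', P.IsMaximal → (p : 𝓞 K) ∉ P → p ∣ Nat.card (𝓞 K ⧸ P) - 1 → P ∈ S) →
      ∀ (A : Type) [CommRing A] [IsLocalRing A] [IsNoetherianRing A] [TopologicalSpace A]
      [CharP (ResidueField A) p] [Finite (ResidueField A)] [IsAdicComplete (maximalIdeal A) A],
      IsAdic (maximalIdeal A) → ∀ m ≤ n, ∀ (ρ : G K →* GL (Fin m) A), Continuous ρ →
      TameAt K S' ρ → ProjectivelyP p (residual ρ) → (Set.range ρ).Finite := by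
  obtain ⟨S, h1, h2, h3, h4⟩ := Helper45.TC.final K p n d hp hdisc hcl hd hn hdp hr B hB
  exact ⟨S, fun P hP => (h2 P hP).1, ⟨h1, fun P hP => (h2 P hP).2.1, fun P hP => (h2 P hP).2.2.1,
    fun P hP => (h2 P hP).2.2.2.1, fun P hP => (h2 P hP).2.2.2.2, h3⟩, h4⟩

/-- If `16 n ^ 2` is at most the unit rank, then `d` can be chosen in the theorem such that the
inequality of Golod and Shafarevich for `d` generators and `ρ + d` relations is satisfied. -/
theorem exists_d {n r : ℕ} (h : 16 * n ^ 2 ≤ r) : ∃ d, 2 ≤ d ∧ (n - 1) * (2 * d - 3) ≤ r ∧
    4 * (r + d) ≤ d ^ 2 ∧ (d - 3) ^ 2 < 4 * (r + 1) :=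
  Helper45.TC.exists_d h

/-- The function `L` is a logarithm modulo `p` of the residue field of `P`. -/
structure IsLog (p : ℕ) {K : Type} [Field K] [NumberField K] (P : Ideal (𝓞 K)) (L : 𝓞 K → ZMod p) :
    Prop where
  mul : ∀ x y, x ∉ P → y ∉ P → L (x * y) = L x + L y
  congr : ∀ x y, x ∉ P → x - y ∈ P → L x = L y
  zero_iff : ∀ x, x ∉ P → (L x = 0 ↔ ∃ z, x - z ^ p ∈ P)

/-- The primes `P j` have prime norms `p * c j + 1`, where `c j` is prime to `p`, the functions `L j`
are logarithms modulo `p` of their residue fields, `π j` is a generator of the power of `P j` whose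
exponent is the class number, and the `κ a` are a basis of the space of all vectors `x` with
`∑ x j * L j ε = 0` for all units `ε`. -/
structure Symbols (p : ℕ) (K : Type) [Field K] [NumberField K] {s d : ℕ} (P : Fin s → Ideal (𝓞 K))
    (c : Fin s → ℕ) (L : Fin s → 𝓞 K → ZMod p) (π : Fin s → 𝓞 K) (κ : Fin d → Fin s → ZMod p) :
    Prop where
  injective : Function.Injective P
  maximal : ∀ j, (P j).IsMaximal
  prime : ∀ j, (Nat.card (𝓞 K ⧸ P j)).Prime
  card_eq : ∀ j, Nat.card (𝓞 K ⧸ P j) = p * c j + 1
  not_dvd : ∀ j, ¬ p ∣ c j
  log : ∀ j, IsLog p (P j) (L j)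
  generator : ∀ j, Ideal.span {π j} = P j ^ classNumber K
  units : ∀ a, ∀ ε : (𝓞 K)ˣ, ∑ j, κ a j * L j ε = 0
  span : ∀ x : Fin s → ZMod p, (∀ ε : (𝓞 K)ˣ, ∑ j, x j * L j ε = 0) →
    ∃ e : Fin d → ZMod p, x = ∑ a, e a • κ a
  independent : LinearIndependent (ZMod p) κ

/-- The same is true for all sets of primes whose symbols are not in a hypersurface: let
`(n - 1) (2 d - 3) + d ≤ s`. Then there is a nonzero polynomial `D` with integral coefficients, which
depends only on `n`, `d` and `s`, with the following property. Let `K` be a number field, and let
`p > n` be an odd prime number which does not divide the class number `h` of `K`. Let `S` be a set of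
`s` primes of `K` with prime norms `p * c j + 1`, where `c j` is prime to `p`, such that there are
exactly `p ^ d` characters of order dividing `p` unramified outside `S`, and assume that `D` does not
vanish modulo `p` at the numbers `κ a j`, `(∑ κ a k * L k (π j)) / h` (the sum is over `k ≠ j`) and
`c j`. Then the representations considered in `result` have finite image for this set `S`. -/
theorem generic (n d s : ℕ) (hd : 2 ≤ d) (hs : (n - 1) * (2 * d - 3) + d ≤ s) :
    ∃ D : MvPolynomial ((Fin s × Fin d) ⊕ (Fin s × Fin d) ⊕ Fin s) ℤ, D ≠ 0 ∧
      ∀ (K : Type) [Field K] [NumberField K] (p : ℕ) [Fact p.Prime], p ≠ 2 → n < p →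
      ¬ p ∣ classNumber K → ∀ (P : Fin s → Ideal (𝓞 K)) (c : Fin s → ℕ)
      (L : Fin s → 𝓞 K → ZMod p) (π : Fin s → 𝓞 K) (κ : Fin d → Fin s → ZMod p),
      Symbols p K P c L π κ →
      MvPolynomial.aeval (Sum.elim (fun i => κ i.2 i.1) (Sum.elim
        (fun i => (∑ k ∈ Finset.univ.erase i.1, κ i.2 k * L k (π i.1)) / (classNumber K : ZMod p))
        fun j => (c j : ZMod p))) D ≠ 0 →
      ∀ S' : Set (Ideal (𝓞 K)), S'.Finite →
      (∀ Q ∈ S', Q.IsMaximal → (p : 𝓞 K) ∉ Q → p ∣ Nat.card (𝓞 K ⧸ Q) - 1 → ∃ j, P j = Q) →
      ∀ (A : Type) [CommRing A] [IsLocalRing A] [IsNoetherianRing A] [TopologicalSpace A]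
      [CharP (ResidueField A) p] [Finite (ResidueField A)] [IsAdicComplete (maximalIdeal A) A],
      IsAdic (maximalIdeal A) → ∀ m ≤ n, ∀ (ρ : G K →* GL (Fin m) A), Continuous ρ →
      TameAt K S' ρ → ProjectivelyP p (residual ρ) → (Set.range ρ).Finite := by
  obtain ⟨D, hD0, hD⟩ := Helper45.TC.criterion n d s hd hs
  refine ⟨D, hD0, ?_⟩
  intro K _ _ p _ hp2 hn hK' P c L π κ h hne
  have hbot : ∀ j, P j ≠ ⊥ := by
    intro j hj
    have h1 := h.maximal j
    rw [hj] at h1
    exact RingOfIntegers.not_isField K (Ring.isField_iff_maximal_bot.2 h1)
  let v : Fin s → IsDedekindDomain.HeightOneSpectrum (𝓞 K) := fun j =>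
    ⟨P j, (h.maximal j).isPrime, hbot j⟩
  have hcard : ∀ j, Helper45.TC.nm (v j) = p * c j + 1 := fun j => h.card_eq j
  exact hD K p hp2 hn hK' v (fun i j hij => h.injective (congrArg (fun w => w.asIdeal) hij))
    (fun j => ⟨h.prime j, by rw [hcard, Nat.add_sub_cancel]; exact dvd_mul_right _ _⟩) c
    (fun j => by rw [hcard, Nat.add_sub_cancel]) h.not_dvd L
    (fun j => ⟨(h.log j).mul, (h.log j).congr, (h.log j).zero_iff⟩) π h.generator κ h.units h.span
    h.independent hne

end Pool.Agent.Results.MP_924d78_nt.LargeUnitRank
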